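import Pool.Agent.Helper15.TS.St

/-!
PROJECT TS (MP_434a84_lc), module DEEP: a semilinear set with deep points over a set `I`
of letters contains a ray whose direction is positive on `I`.
-/

namespace Pool.Agent.Helper40.TS

open Pool.Agent.Helper22.FL Pool.Agent.Helper22.CS Pool.Agent.Helper15.TS

open scoped Pointwise

/-- a letter occurring in no period is constant on the closure -/
lemma closure_letter {n : ℕ} (t : Set (Fin n → ℕ)) (i : Fin n) (ht : ∀ p ∈ t, p i = 0)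
    (x : Fin n → ℕ) (hx : x ∈ AddSubmonoid.closure t) : x i = 0 := by
  induction hx using AddSubmonoid.closure_induction with
  | mem x hx => exact ht x hx
  | zero => rfl
  | add x y _ _ hx hy => simp [hx, hy]

/-- one piece: a bound for deep points, or a ray -/
lemma piece {n : ℕ} (s : Set (Fin n → ℕ)) (hs : IsLinearSet s) (I : Finset (Fin n)) :
    (∃ e w : Fin n → ℕ, (∀ i ∈ I, 1 ≤ w i) ∧ ∀ τ : ℕ, e + τ • w ∈ s) ∨
      ∃ B : ℕ, ∀ y ∈ s, ∃ i ∈ I, y i < B := by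
  obtain ⟨c, t, rfl⟩ := isLinearSet_iff.1 hs
  by_cases h : ∀ i ∈ I, ∃ p ∈ t, p i ≠ 0
  · left
    refine ⟨c, ∑ p ∈ t, p, ?_, ?_⟩
    · intro i hi
      obtain ⟨p, hp, hpi⟩ := h i hi
      have h1 : p i ≤ (∑ p ∈ t, p) i := by
        rw [Finset.sum_apply]
        exact Finset.single_le_sum (f := fun q : Fin n → ℕ => q i)
          (fun q _ => Nat.zero_le _) hp
      omega
    · intro τ
      refine Set.mem_vadd_set.2 ⟨τ • ∑ p ∈ t, p, ?_, rfl⟩
      exact nsmul_mem (sum_mem fun p hp => AddSubmonoid.subset_closure hp) τ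
  · right
    push Not at h
    obtain ⟨i, hi, hti⟩ := h
    refine ⟨c i + 1, ?_⟩
    intro y hy
    obtain ⟨x, hx, rfl⟩ := Set.mem_vadd_set.1 hy
    refine ⟨i, hi, ?_⟩
    have h1 := closure_letter (t : Set (Fin n → ℕ)) i (fun p hp => hti p hp) x hx
    simp [h1]

theorem stdeep : StDEEP := by
  intro n Y hY I hI
  obtain ⟨S, hS, rfl⟩ := isSemilinearSet_iff.1 hY
  by_contra hno
  have h1 : ∀ s ∈ S, ∃ B : ℕ, ∀ y ∈ s, ∃ i ∈ I, y i < B := by
    intro s hs
    rcases piece s (hS s hs) I with ⟨e, w, hw, hr⟩ | h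
    · exact absurd ⟨e, w, hw, fun τ => Set.mem_sUnion.2 ⟨s, hs, hr τ⟩⟩ hno
    · exact h
  choose! B hB using h1
  obtain ⟨y, hy, hyI⟩ := hI (∑ s ∈ S, B s)
  obtain ⟨s, hs, hys⟩ := Set.mem_sUnion.1 hy
  obtain ⟨i, hi, hlt⟩ := hB s hs y hys
  have h2 : B s ≤ ∑ s ∈ S, B s := Finset.single_le_sum (f := B) (fun _ _ => Nat.zero_le _) hs
  have h3 := hyI i hi
  omega

end Pool.Agent.Helper40.TS
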